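import Pool.Agent.H598.FQ.Many

/-!
# Points on `k`-spheres over polynomial rings: the order of magnitude

Let `F` be a finite field with `q` elements and let `P ≥ 0`. The analogue of the ball of radius
`r = q ^ P` in `ℤ` is the set of polynomials of degree at most `P`, and the analogue of the
arithmetic `k`-sphere in `d` dimensions is the set of `d`-tuples of such polynomials whose
`k`-th powers add up to a given polynomial `m` of degree at most `k P`.
-/

namespace Pool.Agent.Results.MP_927be3_nt.FunctionFieldSpheres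

open Polynomial

/-- The number of points on the `k`-sphere: the number of `d`-tuples of polynomials of degree at
most `P` whose `k`-th powers have sum `m`. -/
noncomputable def N (F : Type*) [Field F] (k d P : ℕ) (m : F[X]) : ℕ :=
  Nat.card {x : Fin d → F[X] // (∀ i, (x i).natDegree ≤ P) ∧ ∑ i, x i ^ k = m}

/-- Let `k ≥ 2` and let `F` be a finite field with `q ≥ (8k) ^ (k 2 ^ k)` elements and of
characteristic larger than `k`. Write `r = q ^ P`.

(a) In every dimension `d ≥ 2k + 1` the number of points on every `k`-sphere is of the order of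
`r ^ (d - k)`: it lies between `1/2` and `4k + 4` times `q ^ (d - 1) r ^ (d - k)`.

(b) If `-1` is a `k`-th power in `F`, then in every dimension `1 ≤ d ≤ 2k - 3` it is not: there is
no constant `C` such that the number of points on the sphere `x_1 ^ k + ... + x_d ^ k = t ^ (k P)`
is at most `C r ^ (d - k)` for all `P`.

So the smallest dimension in which the number of points is of the order `r ^ (d - k)` is at least
`2k - 2` and at most `2k + 1`. -/
theorem result (k : ℕ) (hk : 2 ≤ k) (F : Type*) [Field F] [Fintype F]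
    (hchar : k < ringChar F) (hq : (8 * k) ^ (k * 2 ^ k) ≤ Fintype.card F) :
    (∀ d : ℕ, 2 * k + 1 ≤ d → ∀ (P : ℕ) (m : F[X]), m.natDegree ≤ k * P →
      (1 / 2) * ((Fintype.card F : ℝ) ^ (d - 1) * (Fintype.card F : ℝ) ^ (d * P))
        ≤ (Fintype.card F : ℝ) ^ (k * P) * (N F k d P m : ℝ) ∧
      (Fintype.card F : ℝ) ^ (k * P) * (N F k d P m : ℝ)
        ≤ (4 * k + 4) * ((Fintype.card F : ℝ) ^ (d - 1) * (Fintype.card F : ℝ) ^ (d * P))) ∧
    ((∃ z : F, z ^ k = -1) → ∀ d : ℕ, 1 ≤ d → d + 3 ≤ 2 * k →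
      ¬ ∃ C : ℝ, ∀ P : ℕ, (Fintype.card F : ℝ) ^ (k * P) * (N F k d P (X ^ (k * P)) : ℝ)
        ≤ C * (Fintype.card F : ℝ) ^ (d * P)) := by
  have hch : ∀ i : ℕ, 1 ≤ i → i ≤ k → ((i : ℕ) : F) ≠ 0 := by
    intro i hi hik h0
    have h1 : ringChar F ∣ i := ringChar.dvd h0
    have h2 := Nat.le_of_dvd (by omega) h1
    omega
  refine ⟨?_, ?_⟩
  · intro d hd P m hm
    obtain ⟨b, rfl⟩ := Nat.exists_eq_add_of_le hd
    have h := Pool.Agent.H598.FQ.NS_bounds hk hch hq b P m
      (Pool.Agent.H598.FQ.mem_V_succ_iff.2 hm)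
    rw [Pool.Agent.H598.FQ.NS_eq] at h
    have hN : Nat.card {x : Fin (2 * k + 1 + b) → F[X] //
      (∀ i, (x i).natDegree ≤ P) ∧ ∑ i, x i ^ k = m} = N F k (2 * k + 1 + b) P m := rfl
    rw [hN] at h
    set q : ℝ := (Fintype.card F : ℝ) with hqq
    have hq0 : 0 < q := by rw [hqq]; exact_mod_cast Fintype.card_pos
    have e1 : (q ^ (P + 1)) ^ (2 * k + 1 + b)
        = q * (q ^ (2 * k + 1 + b - 1) * q ^ ((2 * k + 1 + b) * P)) := by
      rw [← pow_mul, ← pow_add, ← pow_succ']
      congr 1
      have : 2 * k + 1 + b - 1 + 1 = 2 * k + 1 + b := by omega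
      have e : 2 * k + 1 + b - 1 + (2 * k + 1 + b) * P + 1
          = (2 * k + 1 + b - 1 + 1) + (2 * k + 1 + b) * P := by ring
      rw [e, this]
      ring
    rw [e1, pow_succ q (k * P)] at h
    constructor
    · apply le_of_mul_le_mul_left _ hq0
      calc q * (1 / 2 * (q ^ (2 * k + 1 + b - 1) * q ^ ((2 * k + 1 + b) * P)))
          = 1 / 2 * (q * (q ^ (2 * k + 1 + b - 1) * q ^ ((2 * k + 1 + b) * P))) := by ring
        _ ≤ _ := h.1
        _ = _ := by ring
    · apply le_of_mul_le_mul_left _ hq0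
      calc q * (q ^ (k * P) * (N F k (2 * k + 1 + b) P m : ℝ))
          = q ^ (k * P) * q * (N F k (2 * k + 1 + b) P m : ℝ) := by ring
        _ ≤ _ := h.2
        _ = _ := by ring
  · rintro ⟨z, hz⟩ d hd hdk ⟨C, hC⟩
    obtain ⟨P, hP⟩ := Pool.Agent.H598.FQ.not_order (by omega : k ≠ 0) hz hd hdk C
    have h := hC P
    rw [Pool.Agent.H598.FQ.NS_eq] at hP
    exact absurd h (not_le.2 hP)

end Pool.Agent.Results.MP_927be3_nt.FunctionFieldSpheres
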